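import Pool.Agent.Helper51.ST.PG
import Pool.Agent.Helper87.ST.PCP
import Pool.Agent.Helper82.ST.JN

set_option autoImplicit false

/-!
# Piece EXC of the proof of S09391 (MP_6ecf75_co): the exceptional case, order 256
-/

namespace Pool.Agent.Helper90.ST

namespace ExcAux

open scoped commutatorElement

theorem exists_mem_not_mem {Q : Type} [Group Q] {X Y : Subgroup Q} (hX : X.index = 2)
    (hY : Y.index = 2) (hne : X ≠ Y) : ∃ a ∈ X, a ∉ Y := by
  by_contra hcon
  push Not at hcon
  have hle : X ≤ Y := hcon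
  have h1 := Subgroup.relIndex_mul_index hle
  rw [hX, hY] at h1
  have h2 : X.relIndex Y = 1 := by omega
  rw [Subgroup.relIndex_eq_one] at h2
  exact hne (le_antisymm hle h2)

/-- three different elementary abelian subgroups of index two -/
theorem lemmaA {Q : Type} [Group Q] (X1 X2 X3 : Subgroup Q) (h1 : X1.index = 2)
    (h2 : X2.index = 2) (h3 : X3.index = 2) (h12 : X1 ≠ X2) (h13 : X1 ≠ X3) (h23 : X2 ≠ X3)
    (e1 : ∀ a ∈ X1, a * a = 1) (e2 : ∀ a ∈ X2, a * a = 1) (e3 : ∀ a ∈ X3, a * a = 1)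
    (c1 : ∀ a ∈ X1, ∀ b ∈ X1, a * b = b * a) (c2 : ∀ a ∈ X2, ∀ b ∈ X2, a * b = b * a) :
    ∀ q : Q, q * q = 1 := by
  have hcen : ∀ d ∈ X1, d ∈ X2 → ∀ g : Q, d * g = g * d := by
    intro d hd1 hd2 g
    by_cases hg1 : g ∈ X1
    · exact c1 d hd1 g hg1
    by_cases hg2 : g ∈ X2
    · exact c2 d hd2 g hg2
    obtain ⟨a, ha1, ha2⟩ := exists_mem_not_mem h1 h2 h12
    have hx : a⁻¹ * g ∈ X2 := by
      rw [Subgroup.mul_mem_iff_of_index_two h2]
      rw [inv_mem_iff]
      exact ⟨fun h => absurd h ha2, fun h => absurd h hg2⟩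
    have e := c2 d hd2 _ hx
    have e' := c1 d hd1 a ha1
    calc d * g = d * a * (a⁻¹ * g) := by group
      _ = a * (d * (a⁻¹ * g)) := by rw [e', mul_assoc]
      _ = a * (a⁻¹ * g * d) := by rw [e]
      _ = g * d := by group
  by_cases hD : ∀ d ∈ X1, d ∈ X2 → d ∈ X3
  · intro q
    by_cases hq1 : q ∈ X1
    · exact e1 q hq1
    by_cases hq2 : q ∈ X2
    · exact e2 q hq2
    -- find c in X3, not in X1, not in X2
    have hc : ∃ c ∈ X3, c ∉ X1 ∧ c ∉ X2 := by
      obtain ⟨c, hc3, hc1⟩ := exists_mem_not_mem h3 h1 (Ne.symm h13)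
      obtain ⟨c', hc'3, hc'2⟩ := exists_mem_not_mem h3 h2 (Ne.symm h23)
      by_cases hc2 : c ∈ X2
      · by_cases hc'1 : c' ∈ X1
        · refine ⟨c * c', X3.mul_mem hc3 hc'3, ?_, ?_⟩
          · rw [Subgroup.mul_mem_iff_of_index_two h1]
            intro h
            exact hc1 (h.2 hc'1)
          · rw [Subgroup.mul_mem_iff_of_index_two h2]
            intro h
            exact hc'2 (h.1 hc2)
        · exact ⟨c', hc'3, hc'1, hc'2⟩
      · exact ⟨c, hc3, hc1, hc2⟩
    obtain ⟨c, hc3, hc1, hc2⟩ := hc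
    have hm1 : q * c⁻¹ ∈ X1 := by
      rw [Subgroup.mul_mem_iff_of_index_two h1, inv_mem_iff]
      exact ⟨fun h => absurd h hq1, fun h => absurd h hc1⟩
    have hm2 : q * c⁻¹ ∈ X2 := by
      rw [Subgroup.mul_mem_iff_of_index_two h2, inv_mem_iff]
      exact ⟨fun h => absurd h hq2, fun h => absurd h hc2⟩
    have hm3 : q ∈ X3 := by
      have := X3.mul_mem (hD _ hm1 hm2) hc3
      rwa [inv_mul_cancel_right] at this
    exact e3 q hm3
  · push Not at hD
    obtain ⟨d, hd1, hd2, hd3⟩ := hD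
    intro q
    by_cases hq : q ∈ X3
    · exact e3 q hq
    have hx : d⁻¹ * q ∈ X3 := by
      rw [Subgroup.mul_mem_iff_of_index_two h3, inv_mem_iff]
      exact ⟨fun h => absurd h hd3, fun h => absurd h hq⟩
    have hxx := e3 _ hx
    have hdd := e1 d hd1
    have hc := hcen d hd1 hd2 (d⁻¹ * q)
    calc q * q = d * (d⁻¹ * q) * (d * (d⁻¹ * q)) := by group
      _ = (d⁻¹ * q) * d * (d * (d⁻¹ * q)) := by rw [hc]
      _ = (d⁻¹ * q) * (d * d) * (d⁻¹ * q) := by group
      _ = (d⁻¹ * q) * (d⁻¹ * q) := by rw [hdd, mul_one]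
      _ = 1 := hxx

theorem card_map_mk {G : Type} [Group G] (N K : Subgroup G) [N.Normal] :
    Nat.card (K.map (QuotientGroup.mk' N)) = N.relIndex K := by
  rw [← Subgroup.relIndex_bot_left, ← Subgroup.relIndex_comap, MonoidHom.comap_bot,
    QuotientGroup.ker_mk']

theorem relIndex_sup_zpowers {G : Type} [Group G] [Finite G] (N : Subgroup G) (hN : N.Normal)
    (a : G) (ha : a * a ∈ N) : N.relIndex (N ⊔ Subgroup.zpowers a) ≤ 2 := by
  rw [Subgroup.relIndex_sup_left, ← card_map_mk, MonoidHom.map_zpowers, Nat.card_zpowers]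
  apply orderOf_le_of_pow_eq_one (by norm_num)
  rw [pow_two, ← map_mul]
  exact (QuotientGroup.eq_one_iff _).2 ha

theorem excCardMul {G : Type} [Group G] (H K : Subgroup G) (h : H ≤ K) :
    Nat.card H * H.relIndex K = Nat.card K := by
  have := Subgroup.relIndex_mul_relIndex ⊥ H K bot_le h
  rwa [Subgroup.relIndex_bot_left, Subgroup.relIndex_bot_left] at this

section

variable {G ι : Type} [Group G] [Finite G]

theorem stepA (hG : IsPGroup 2 G) (H : ι → Subgroup G)
    (hprod : ∀ i j, i ≠ j → ∀ g : G, ∃ a ∈ H i, ∃ b ∈ H j, g = a * b)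
    (N : Subgroup G) (hN : N.Normal) (hNM : N ≤ PhiP 2 G) (hidx : N.relIndex (PhiP 2 G) = 2)
    (i j k : ι) (hij : i ≠ j) (hik : i ≠ k) (hjk : j ≠ k)
    (hi : H i ⊓ PhiP 2 G ≤ N) (hj : H j ⊓ PhiP 2 G ≤ N) (hk : H k ⊓ PhiP 2 G ≤ N)
    (hi2 : (H i ⊔ PhiP 2 G).index = 2) (hj2 : (H j ⊔ PhiP 2 G).index = 2)
    (hk2 : (H k ⊔ PhiP 2 G).index = 2) : False := by
  have hMn : (PhiP 2 G).Normal := PhiP_normal 2 G
  have : Fact (Nat.Prime 2) := ⟨Nat.prime_two⟩
  set π := QuotientGroup.mk' N with hπ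
  have hker : ∀ {g : G}, π g = 1 ↔ g ∈ N := fun {g} => QuotientGroup.eq_one_iff g
  -- elements of M are central mod N, with square one
  have hMc : ∀ m ∈ PhiP 2 G, ∀ g : G, π m * π g = π g * π m := by
    intro m hm g
    have h1 := comm_mem_of_relIndex hG N (PhiP 2 G) hN hMn hNM hidx m hm g
    rw [← hker, map_mul, map_mul, map_mul, map_inv, map_inv] at h1
    have h2 : (π m)⁻¹ * (π g)⁻¹ * π m * π g = 1 := h1
    calc π m * π g = π g * π m * ((π m)⁻¹ * (π g)⁻¹ * π m * π g) := by group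
      _ = π g * π m := by rw [h2, mul_one]
  have hM2 : ∀ m ∈ PhiP 2 G, π m * π m = 1 := by
    intro m hm
    have h1 : Nat.card ((PhiP 2 G).map π) = 2 := by rw [hπ, card_map_mk, hidx]
    have h2 := pow_card_eq_one' (x := (⟨π m, Subgroup.mem_map_of_mem _ hm⟩ :
      (PhiP 2 G).map π))
    rw [h1] at h2
    have h3 := congrArg Subtype.val h2
    rw [pow_two] at h3
    exact h3
  have hHc : ∀ l, H l ⊓ PhiP 2 G ≤ N → ∀ a ∈ H l, ∀ b ∈ H l, π a * π b = π b * π a := by
    intro l hl a ha b hb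
    have h1 : a * b * a⁻¹ * b⁻¹ ∈ N := hl ⟨by
      exact (H l).mul_mem ((H l).mul_mem ((H l).mul_mem ha hb) ((H l).inv_mem ha))
        ((H l).inv_mem hb), comm_mem_PhiP 2 a b⟩
    rw [← hker, map_mul, map_mul, map_mul, map_inv, map_inv] at h1
    calc π a * π b = (π a * π b * (π a)⁻¹ * (π b)⁻¹) * (π b * π a) := by group
      _ = π b * π a := by rw [h1, one_mul]
  have hH2 : ∀ l, H l ⊓ PhiP 2 G ≤ N → ∀ a ∈ H l, π a * π a = 1 := by
    intro l hl a ha
    have h1 : a ^ 2 ∈ N := hl ⟨(H l).pow_mem ha 2, pow_mem_PhiP 2 a⟩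
    rw [← map_mul, ← pow_two, hker]
    exact h1
  have hXc : ∀ l, H l ⊓ PhiP 2 G ≤ N → ∀ a ∈ (H l ⊔ PhiP 2 G).map π,
      ∀ b ∈ (H l ⊔ PhiP 2 G).map π, a * b = b * a := by
    rintro l hl _ ⟨a, ha, rfl⟩ _ ⟨b, hb, rfl⟩
    obtain ⟨a1, ha1, m, hm, rfl⟩ := Subgroup.mem_sup_of_normal_right.1 ha
    obtain ⟨b1, hb1, n, hn, rfl⟩ := Subgroup.mem_sup_of_normal_right.1 hb
    have e1 := hHc l hl a1 ha1 b1 hb1
    have e2 := hMc m hm (b1 * n)
    have e3 := hMc n hn a1
    rw [map_mul] at e2
    rw [map_mul, map_mul]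
    calc π a1 * π m * (π b1 * π n) = π a1 * (π m * (π b1 * π n)) := by group
      _ = π a1 * ((π b1 * π n) * π m) := by rw [e2]
      _ = (π a1 * π b1) * π n * π m := by group
      _ = π b1 * π a1 * π n * π m := by rw [e1]
      _ = π b1 * (π a1 * π n) * π m := by group
      _ = π b1 * (π n * π a1) * π m := by rw [e3]
      _ = π b1 * π n * (π a1 * π m) := by group
  have hX2 : ∀ l, H l ⊓ PhiP 2 G ≤ N → ∀ a ∈ (H l ⊔ PhiP 2 G).map π, a * a = 1 := by
    rintro l hl _ ⟨a, ha, rfl⟩
    obtain ⟨a1, ha1, m, hm, rfl⟩ := Subgroup.mem_sup_of_normal_right.1 ha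
    have e1 := hH2 l hl a1 ha1
    have e2 := hM2 m hm
    have e3 := hMc m hm a1
    rw [map_mul]
    calc π a1 * π m * (π a1 * π m) = π a1 * (π m * π a1) * π m := by group
      _ = π a1 * (π a1 * π m) * π m := by rw [e3]
      _ = (π a1 * π a1) * (π m * π m) := by group
      _ = 1 := by rw [e1, e2, one_mul]
  have hidxX : ∀ l, (H l ⊔ PhiP 2 G).index = 2 → ((H l ⊔ PhiP 2 G).map π).index = 2 := by
    intro l hl
    rw [Subgroup.index_map_eq _ (QuotientGroup.mk'_surjective N), hl]
    rw [QuotientGroup.ker_mk']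
    exact hNM.trans le_sup_right
  have hne : ∀ l l', l ≠ l' → (H l ⊔ PhiP 2 G).index = 2 →
      (H l ⊔ PhiP 2 G).map π ≠ (H l' ⊔ PhiP 2 G).map π := by
    intro l l' hll hl heq
    have h1 := congrArg (Subgroup.comap π) heq
    rw [Subgroup.comap_map_eq, Subgroup.comap_map_eq, hπ, QuotientGroup.ker_mk',
      sup_eq_left.2 (hNM.trans le_sup_right), sup_eq_left.2 (hNM.trans le_sup_right)] at h1
    have h2 : (H l ⊔ PhiP 2 G) = ⊤ := by
      rw [eq_top_iff]
      intro g _
      obtain ⟨a, ha, b, hb, rfl⟩ := hprod l l' hll g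
      apply Subgroup.mul_mem
      · exact Subgroup.mem_sup_left ha
      · rw [h1]; exact Subgroup.mem_sup_left hb
    rw [h2, Subgroup.index_top] at hl
    omega
  have hall := lemmaA _ _ _ (hidxX i hi2) (hidxX j hj2) (hidxX k hk2) (hne i j hij hi2)
    (hne i k hik hi2) (hne j k hjk hj2) (hX2 i hi) (hX2 j hj) (hX2 k hk) (hXc i hi) (hXc j hj)
  have hcomm : ∀ x y : G ⧸ N, x * y * x⁻¹ * y⁻¹ = 1 := by
    intro x y
    have hx : x⁻¹ = x := (eq_inv_of_mul_eq_one_left (hall x)).symm
    have hy : y⁻¹ = y := (eq_inv_of_mul_eq_one_left (hall y)).symm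
    rw [hx, hy, mul_assoc (x * y)]
    exact hall (x * y)
  have hle : PhiP 2 G ≤ N := by
    apply PhiP_le
    · intro x
      rw [← hker, pow_two, map_mul]
      exact hall (π x)
    · intro x y
      rw [← hker, map_mul, map_mul, map_mul, map_inv, map_inv]
      exact hcomm (π x) (π y)
  rw [Subgroup.relIndex_eq_one.2 hle] at hidx
  omega

theorem case16 (hG : IsPGroup 2 G) (H : ι → Subgroup G)
    (hprod : ∀ i j, i ≠ j → ∀ g : G, ∃ a ∈ H i, ∃ b ∈ H j, g = a * b)
    (hMcard : Nat.card (PhiP 2 G) = 16) (I : Finset ι) (hI : 6 ≤ I.card) (x : ι → G)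
    (hx : ∀ i ∈ I, x i ∈ H i ∧ x i ∈ PhiP 2 G ∧ x i ≠ 1 ∧
      ∀ y ∈ H i, y ∈ PhiP 2 G → y = 1 ∨ y = x i)
    (hidx : ∀ i ∈ I, (H i ⊔ PhiP 2 G).index = 2)
    (hinj : ∀ i ∈ I, ∀ j ∈ I, x i = x j → i = j) : False := by
  classical
  have : Fact (Nat.Prime 2) := ⟨Nat.prime_two⟩
  have hMn : (PhiP 2 G).Normal := PhiP_normal 2 G
  set M := PhiP 2 G with hM
  have hleN : ∀ N : Subgroup G, ∀ i ∈ I, x i ∈ N → H i ⊓ M ≤ N := by
    intro N i hi hN y hy
    rcases (hx i hi).2.2.2 y hy.1 hy.2 with rfl | rfl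
    · exact N.one_mem
    · exact hN
  -- at most two of the `x i` in a proper normal subgroup
  have hA : ∀ K : Subgroup G, K.Normal → K ≤ M → K ≠ M → ∀ i ∈ I, ∀ j ∈ I, ∀ k ∈ I,
      i ≠ j → i ≠ k → j ≠ k → x i ∈ K → x j ∈ K → x k ∈ K → False := by
    intro K hK hKM hne i hi j hj k hk hij hik hjk h1 h2 h3
    obtain ⟨N, hN, hKN, hNM, hNidx⟩ := exists_index_p hG K M hK hMn (lt_of_le_of_ne hKM hne)
    exact stepA hG H hprod N hN hNM.le hNidx i j k hij hik hjk (hleN N i hi (hKN h1))
      (hleN N j hj (hKN h2)) (hleN N k hk (hKN h3)) (hidx i hi) (hidx j hj) (hidx k hk)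
  -- squares
  have hx2 : ∀ i ∈ I, x i * x i = 1 := by
    intro i hi
    obtain ⟨h1, h2, h3, h4⟩ := hx i hi
    rcases h4 _ ((H i).mul_mem h1 h1) (M.mul_mem h2 h2) with h | h
    · exact h
    · exact absurd (mul_eq_left.1 h) h3
  have hxc : ∀ i ∈ I, ∀ a ∈ H i, a * x i = x i * a := by
    intro i hi a ha
    obtain ⟨h1, h2, h3, h4⟩ := hx i hi
    rcases h4 (a * x i * a⁻¹) ((H i).mul_mem ((H i).mul_mem ha h1) ((H i).inv_mem ha))
      (hMn.conj_mem _ h2 a) with h | h
    · exfalso
      apply h3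
      rw [mul_inv_eq_one] at h
      exact mul_eq_left.1 h
    · rwa [mul_inv_eq_iff_eq_mul] at h
  -- divisors
  have hdiv : ∀ K : Subgroup G, ∀ n : ℕ, K.relIndex M = n → n ∣ 16 := by
    intro K n h
    rw [← h, ← hMcard]
    exact Subgroup.relIndex_dvd_card K M
  have hdiv8 : ∀ n : ℕ, n ∣ 16 → 5 ≤ n → 8 ≤ n := by
    intro n hn h5
    have hle : n ≤ 16 := Nat.le_of_dvd (by norm_num) hn
    interval_cases n <;> first | omega | (exfalso; revert hn; decide)
  -- step B
  have hB : ∀ M1 : Subgroup G, M1 ≤ M → M1 ≠ M → (∀ m ∈ M, m * m ∈ M1) →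
      (∀ m ∈ M, ∀ g : G, m⁻¹ * g⁻¹ * m * g ∈ M1) → M1.relIndex M ≤ 4 := by
    intro M1 hM1 hne hsq hcm
    by_contra hcon
    push Not at hcon
    have h8 : 8 ≤ M1.relIndex M := hdiv8 _ (hdiv M1 _ rfl) (by omega)
    have hnorm : ∀ K : Subgroup G, M1 ≤ K → K ≤ M → K.Normal := by
      intro K hK hKM
      constructor
      intro n hn g
      have h1 := hcm n (hKM hn) g⁻¹
      have h2 := K.mul_mem hn (hK h1)
      have h3 : n * (n⁻¹ * g⁻¹⁻¹ * n * g⁻¹) = g * n * g⁻¹ := by group
      rw [h3] at h2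
      exact h2
    obtain ⟨i, hi⟩ : I.Nonempty := by
      rw [← Finset.card_pos]; omega
    have hzM : ∀ l ∈ I, Subgroup.zpowers (x l) ≤ M := by
      intro l hl
      rw [Subgroup.zpowers_le]
      exact (hx l hl).2.1
    set K1 := M1 ⊔ Subgroup.zpowers (x i) with hK1
    have hM1n := hnorm M1 le_rfl hM1
    have hK1M : K1 ≤ M := sup_le hM1 (hzM i hi)
    have hK1n : K1.Normal := hnorm K1 le_sup_left hK1M
    have hr1 : M1.relIndex K1 ≤ 2 := relIndex_sup_zpowers M1 hM1n (x i) (hsq _ (hx i hi).2.1)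
    have hr2 := Subgroup.relIndex_mul_relIndex M1 K1 M le_sup_left hK1M
    have hr3 : 4 ≤ K1.relIndex M := by
      by_contra h
      push Not at h
      have : M1.relIndex K1 * K1.relIndex M ≤ 2 * 3 := Nat.mul_le_mul hr1 (by omega)
      omega
    have hxi1 : x i ∈ K1 := Subgroup.mem_sup_right (Subgroup.mem_zpowers _)
    have hsq1 : ∀ m ∈ M, m * m ∈ K1 := fun m hm => (le_sup_left : M1 ≤ K1) (hsq m hm)
    have hI' : 5 ≤ (I.erase i).card := by
      rw [Finset.card_erase_of_mem hi]; omega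
    by_cases h5 : 5 ≤ K1.relIndex M
    · have h8' : 8 ≤ K1.relIndex M := hdiv8 _ (hdiv K1 _ rfl) h5
      obtain ⟨j, hj, k, hk, hjk⟩ := Finset.one_lt_card.1 (by omega : 1 < (I.erase i).card)
      have hj' := Finset.mem_of_mem_erase hj
      have hk' := Finset.mem_of_mem_erase hk
      have hji : j ≠ i := Finset.ne_of_mem_erase hj
      have hki : k ≠ i := Finset.ne_of_mem_erase hk
      set K2 := K1 ⊔ Subgroup.zpowers (x j) with hK2
      have hK2M : K2 ≤ M := sup_le hK1M (hzM j hj')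
      have hK2n : K2.Normal := hnorm K2 (le_sup_left.trans le_sup_left) hK2M
      have hs2 : K1.relIndex K2 ≤ 2 := relIndex_sup_zpowers K1 hK1n (x j) (hsq1 _ (hx j hj').2.1)
      set K3 := K2 ⊔ Subgroup.zpowers (x k) with hK3
      have hK3M : K3 ≤ M := sup_le hK2M (hzM k hk')
      have hK3n : K3.Normal := hnorm K3 ((le_sup_left.trans le_sup_left).trans le_sup_left) hK3M
      have hs3 : K2.relIndex K3 ≤ 2 := relIndex_sup_zpowers K2 hK2n (x k)
        ((le_sup_left : K1 ≤ K2) (hsq1 _ (hx k hk').2.1))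
      have ht1 := Subgroup.relIndex_mul_relIndex K1 K2 K3 le_sup_left le_sup_left
      have hK3ne : K3 ≠ M := by
        intro h
        rw [h] at ht1 hs3
        have : K1.relIndex K2 * K2.relIndex M ≤ 2 * 2 := Nat.mul_le_mul hs2 hs3
        omega
      exact hA K3 hK3n hK3M hK3ne i hi j hj' k hk' hji.symm hki.symm hjk
        ((le_sup_left.trans le_sup_left : K1 ≤ K3) hxi1)
        ((le_sup_left : K2 ≤ K3) (Subgroup.mem_sup_right (Subgroup.mem_zpowers _)))
        (Subgroup.mem_sup_right (Subgroup.mem_zpowers _))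
    · have h4 : K1.relIndex M = 4 := by omega
      set π := QuotientGroup.mk' K1 with hπ
      have hfin : ((M.map π : Subgroup (G ⧸ K1)) : Set (G ⧸ K1)).Finite := Set.toFinite _
      have hcardt : hfin.toFinset.card = 4 := by
        rw [← Set.ncard_eq_toFinset_card _ hfin]
        have : Nat.card (M.map π) = 4 := by rw [hπ, card_map_mk, h4]
        exact this
      obtain ⟨j, hj, k, hk, hjk, hxx⟩ := Finset.exists_ne_map_eq_of_card_lt_of_maps_to
        (s := I.erase i) (t := hfin.toFinset) (by omega) (f := fun l => π (x l)) (by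
          intro l hl
          have hl' := Finset.mem_of_mem_erase hl
          rw [Set.Finite.coe_toFinset]
          exact Subgroup.mem_map_of_mem _ (hx l hl').2.1)
      have hj' := Finset.mem_of_mem_erase hj
      have hk' := Finset.mem_of_mem_erase hk
      have hji : j ≠ i := Finset.ne_of_mem_erase hj
      have hki : k ≠ i := Finset.ne_of_mem_erase hk
      set K2 := K1 ⊔ Subgroup.zpowers (x j) with hK2
      have hK2M : K2 ≤ M := sup_le hK1M (hzM j hj')
      have hK2n : K2.Normal := hnorm K2 (le_sup_left.trans le_sup_left) hK2M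
      have hs2 : K1.relIndex K2 ≤ 2 := relIndex_sup_zpowers K1 hK1n (x j) (hsq1 _ (hx j hj').2.1)
      have hK2ne : K2 ≠ M := by
        intro h
        rw [h] at hs2
        omega
      have hjK2 : x j ∈ K2 := Subgroup.mem_sup_right (Subgroup.mem_zpowers _)
      have hkK2 : x k ∈ K2 := by
        have h1 : (x j)⁻¹ * x k ∈ K1 := QuotientGroup.eq.1 hxx
        have h2 := K2.mul_mem hjK2 ((le_sup_left : K1 ≤ K2) h1)
        rwa [mul_inv_cancel_left] at h2
      exact hA K2 hK2n hK2M hK2ne i hi j hj' k hk' hji.symm hki.symm hjk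
        ((le_sup_left : K1 ≤ K2) hxi1) hjK2 hkK2
  -- step C: `M` is central
  have hC : ∀ m ∈ M, ∀ g : G, m * g = g * m := by
    by_contra hcon
    set Γ := ⁅M, (⊤ : Subgroup G)⁆ with hΓ
    have hΓn : Γ.Normal := by rw [hΓ]; infer_instance
    have hΓM : Γ ≤ M := Subgroup.commutator_le_left M ⊤
    have hΓ1 : (⊥ : Subgroup G) < Γ := by
      rw [bot_lt_iff_ne_bot]
      intro h
      apply hcon
      intro m hm g
      have h1 : ⁅m, g⁆ ∈ Γ := Subgroup.commutator_mem_commutator hm (Subgroup.mem_top g)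
      rw [h, Subgroup.mem_bot, commutatorElement_eq_one_iff_mul_comm] at h1
      exact h1
    obtain ⟨N', hN'n, -, hN'Γ, hN'idx⟩ := exists_index_p hG ⊥ Γ inferInstance hΓn hΓ1
    set π := QuotientGroup.mk' N' with hπ
    have hker : ∀ {g : G}, π g = 1 ↔ g ∈ N' := fun {g} => QuotientGroup.eq_one_iff g
    have hΓc : ∀ γ ∈ Γ, ∀ g : G, π γ * π g = π g * π γ := by
      intro m hm g
      have h1 := comm_mem_of_relIndex hG N' Γ hN'n hΓn hN'Γ.le hN'idx m hm g
      rw [← hker, map_mul, map_mul, map_mul, map_inv, map_inv] at h1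
      have h2 : (π m)⁻¹ * (π g)⁻¹ * π m * π g = 1 := h1
      calc π m * π g = π g * π m * ((π m)⁻¹ * (π g)⁻¹ * π m * π g) := by group
        _ = π g * π m := by rw [h2, mul_one]
    have hΓ2 : ∀ γ ∈ Γ, π γ * π γ = 1 := by
      intro m hm
      have h1 : Nat.card (Γ.map π) = 2 := by rw [hπ, card_map_mk, hN'idx]
      have h2 := pow_card_eq_one' (x := (⟨π m, Subgroup.mem_map_of_mem _ hm⟩ : Γ.map π))
      rw [h1] at h2
      have h3 := congrArg Subtype.val h2
      rw [pow_two] at h3
      exact h3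
    set M1 : Subgroup G := M ⊓ (Subgroup.center (G ⧸ N')).comap π with hM1
    have hM1mem : ∀ m ∈ M, (∀ g : G, π g * π m = π m * π g) → m ∈ M1 := by
      intro m hm h
      refine Subgroup.mem_inf.2 ⟨hm, ?_⟩
      rw [Subgroup.mem_comap, Subgroup.mem_center_iff]
      intro q
      obtain ⟨g, rfl⟩ := QuotientGroup.mk'_surjective N' q
      exact h g
    have hM1c : ∀ m ∈ M1, ∀ g : G, π g * π m = π m * π g := by
      intro m hm g
      have h1 := (Subgroup.mem_inf.1 hm).2
      rw [Subgroup.mem_comap, Subgroup.mem_center_iff] at h1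
      exact h1 (π g)
    have hM1M : M1 ≤ M := inf_le_left
    have hcomm' : ∀ m ∈ M, ∀ g : G, m⁻¹ * g⁻¹ * m * g ∈ Γ := by
      intro m hm g
      have h1 : ⁅m⁻¹, g⁻¹⁆ ∈ Γ := Subgroup.commutator_mem_commutator (M.inv_mem hm)
        (Subgroup.mem_top _)
      rw [commutatorElement_def, inv_inv, inv_inv] at h1
      exact h1
    have hM1cm : ∀ m ∈ M, ∀ g : G, m⁻¹ * g⁻¹ * m * g ∈ M1 := by
      intro m hm g
      have h1 := hcomm' m hm g
      exact hM1mem _ (hΓM h1) (fun g' => (hΓc _ h1 g').symm)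
    have hM1sq : ∀ m ∈ M, m * m ∈ M1 := by
      intro m hm
      refine hM1mem _ (M.mul_mem hm hm) ?_
      intro g
      have h1 := hcomm' m hm g
      have h2 := hΓc _ h1 m
      have h3 := hΓ2 _ h1
      set c := m⁻¹ * g⁻¹ * m * g with hc
      -- m g = g m c
      have h4 : π m * π g = π g * π m * π c := by
        rw [← map_mul, ← map_mul, ← map_mul, hc]
        congr 1
        group
      have h5 := hΓc _ h1 m
      symm
      calc π (m * m) * π g = π m * (π m * π g) := by rw [map_mul]; group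
        _ = π m * (π g * π m * π c) := by rw [h4]
        _ = (π m * π g) * (π m * π c) := by group
        _ = (π g * π m * π c) * (π m * π c) := by rw [h4]
        _ = π g * π m * (π c * π m) * π c := by group
        _ = π g * π m * (π m * π c) * π c := by rw [h5]
        _ = π g * π m * π m * (π c * π c) := by group
        _ = π g * π (m * m) := by rw [h3, map_mul]; group
    have hM1ne : M1 ≠ M := by
      intro h
      have h1 : Γ ≤ N' := by
        rw [hΓ, Subgroup.commutator_le]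
        intro m hm g _
        rw [← hker, commutatorElement_def, map_mul, map_mul, map_mul, map_inv, map_inv]
        have h2 := hM1c m (h ▸ hm) g
        rw [← h2]
        group
      exact absurd hN'Γ (not_lt_of_ge h1)
    have hB1 := hB M1 hM1M hM1ne hM1sq hM1cm
    have hM1n : M1.Normal := by
      constructor
      intro n hn g
      have h1 := hM1cm n (hM1M hn) g⁻¹
      have h2 := M1.mul_mem hn h1
      have h3 : n * (n⁻¹ * g⁻¹⁻¹ * n * g⁻¹) = g * n * g⁻¹ := by group
      rw [h3] at h2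
      exact h2
    -- at least four of the `x i` are not in `M1`
    have hI4 : 4 ≤ (I.filter (fun i => x i ∉ M1)).card := by
      have h1 : (I.filter (fun i => x i ∈ M1)).card ≤ 2 := by
        by_contra h
        push Not at h
        obtain ⟨i, j, k, hi, hj, hk, hij, hik, hjk⟩ := Finset.two_lt_card_iff.1 h
        rw [Finset.mem_filter] at hi hj hk
        exact hA M1 hM1n hM1M hM1ne i hi.1 j hj.1 k hk.1 hij hik hjk hi.2 hj.2 hk.2
      have h2 := Finset.card_filter_add_card_filter_not (s := I) (fun i => x i ∈ M1)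
      omega
    set ρ := QuotientGroup.mk' M1 with hρ
    have hfin : (((M.map ρ : Subgroup (G ⧸ M1)) : Set (G ⧸ M1)) \ {1}).Finite := Set.toFinite _
    have hcardt : hfin.toFinset.card ≤ 3 := by
      rw [← Set.ncard_eq_toFinset_card _ hfin]
      have h1 : Nat.card (M.map ρ) ≤ 4 := by rw [hρ, card_map_mk]; exact hB1
      have h2 : ((M.map ρ : Subgroup (G ⧸ M1)) : Set (G ⧸ M1)).ncard ≤ 4 := h1
      have h3 := Set.ncard_sdiff_singleton_of_mem
        (s := ((M.map ρ : Subgroup (G ⧸ M1)) : Set (G ⧸ M1))) (M.map ρ).one_mem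
      omega
    obtain ⟨i, hi, j, hj, hij, hxx⟩ := Finset.exists_ne_map_eq_of_card_lt_of_maps_to
      (s := I.filter (fun i => x i ∉ M1)) (t := hfin.toFinset) (by omega)
      (f := fun l => ρ (x l)) (by
        intro l hl
        rw [Finset.mem_coe, Finset.mem_filter] at hl
        rw [Set.Finite.coe_toFinset]
        refine ⟨Subgroup.mem_map_of_mem _ (hx l hl.1).2.1, ?_⟩
        intro h
        exact hl.2 ((QuotientGroup.eq_one_iff _).1 h))
    rw [Finset.mem_filter] at hi hj
    have hf : (x j)⁻¹ * x i ∈ M1 := QuotientGroup.eq.1 hxx.symm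
    apply hi.2
    refine hM1mem _ (hx i hi.1).2.1 ?_
    intro g
    obtain ⟨a, ha, b, hb, rfl⟩ := hprod i j hij g
    have h1 := hxc i hi.1 a ha
    have h2 := hxc j hj.1 b hb
    have h3 := hM1c _ hf b
    -- x i = x j * f
    set f := (x j)⁻¹ * x i with hfdef
    have h4 : x i = x j * f := by rw [hfdef]; group
    have h5 : π b * π (x i) = π (x i) * π b := by
      rw [h4, map_mul]
      calc π b * (π (x j) * π f) = (π b * π (x j)) * π f := by group
        _ = (π (x j) * π b) * π f := by rw [← map_mul, h2, map_mul]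
        _ = π (x j) * (π b * π f) := by group
        _ = π (x j) * (π f * π b) := by rw [h3]
        _ = π (x j) * π f * π b := by group
    calc π (a * b) * π (x i) = π a * (π b * π (x i)) := by rw [map_mul]; group
      _ = π a * (π (x i) * π b) := by rw [h5]
      _ = (π a * π (x i)) * π b := by group
      _ = (π (x i) * π a) * π b := by rw [← map_mul, h1, map_mul]
      _ = π (x i) * π (a * b) := by rw [map_mul]; group
  -- step D
  let σ : M →* G :=
    { toFun := fun m => (m : G) * m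
      map_one' := by simp
      map_mul' := by
        intro a b
        have h1 := hC a a.2 b
        calc ((a * b : M) : G) * ((a * b : M) : G) = (a : G) * ((b : G) * a) * b := by
              rw [Subgroup.coe_mul]; group
          _ = (a : G) * ((a : G) * b) * b := by rw [h1]
          _ = (a : G) * a * ((b : G) * b) := by group }
  have hrM : σ.range ≤ M := by
    rintro _ ⟨m, rfl⟩
    exact M.mul_mem m.2 m.2
  have hcard1 : Nat.card σ.ker * Nat.card σ.range = 16 := by
    rw [← Subgroup.index_ker, Subgroup.card_mul_index, hMcard]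
  have hcard2 : Nat.card σ.range * σ.range.relIndex M = 16 := by
    rw [excCardMul _ _ hrM, hMcard]
  have hpos : 0 < Nat.card σ.range := Nat.card_pos
  have hkr : σ.range.relIndex M = Nat.card σ.ker := by
    have : Nat.card σ.range * σ.range.relIndex M = Nat.card σ.range * Nat.card σ.ker := by
      rw [hcard2, mul_comm, hcard1]
    exact Nat.eq_of_mul_eq_mul_left hpos this
  have hker6 : 6 ≤ Nat.card σ.ker := by
    let e : I → σ.ker := fun i => ⟨⟨x i, (hx i i.2).2.1⟩, hx2 i i.2⟩
    have he : Function.Injective e := by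
      intro i j hij
      have : x i = x j := congrArg (fun z : σ.ker => ((z : M) : G)) hij
      exact Subtype.ext (hinj i i.2 j j.2 this)
    have := Nat.card_le_card_of_injective e he
    rw [Nat.card_eq_fintype_card, Fintype.card_coe] at this
    omega
  have hne : σ.range ≠ M := by
    intro h
    rw [h, Subgroup.relIndex_self] at hkr
    omega
  have := hB σ.range hrM hne (fun m hm => ⟨⟨m, hm⟩, rfl⟩) (by
    intro m hm g
    have h1 := hC m hm g
    have h2 : m⁻¹ * g⁻¹ * m * g = 1 := by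
      rw [mul_assoc, h1]; group
    rw [h2]
    exact σ.range.one_mem)
  omega

end

end ExcAux

open ExcAux in
theorem exceptional {G ι : Type} [Group G] [Fintype ι] (H : ι → Subgroup G) (h : IsPCP H 16)
    (hι : Fintype.card ι = 9)
    (hM : Nat.card (PhiP 2 G) = 8 ∨ Nat.card (PhiP 2 G) = 16) : False := by
  classical
  have : Fact (Nat.Prime 2) := ⟨Nat.prime_two⟩
  have hG256 : Nat.card G = 256 := by rw [h.cardG]; norm_num
  have : Finite G := Nat.finite_of_card_ne_zero (by rw [hG256]; norm_num)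
  have hG : IsPGroup 2 G := IsPGroup.of_card (n := 8) (by rw [hG256]; norm_num)
  have hMn : (PhiP 2 G).Normal := PhiP_normal 2 G
  have hprod : ∀ i j, i ≠ j → ∀ g : G, ∃ a ∈ H i, ∃ b ∈ H j, g = a * b :=
    fun i j hij g => h.mul_eq (by norm_num) hij g
  have hsum := sum_card_le H h.disj (PhiP 2 G)
  -- orders
  have hrel : ∀ i, Nat.card (H i ⊓ PhiP 2 G : Subgroup G) * (PhiP 2 G).relIndex (H i) = 16 := by
    intro i
    rw [← Subgroup.inf_relIndex_left, excCardMul _ _ inf_le_left, h.cardH i]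
  have hidx : ∀ i, (H i ⊔ PhiP 2 G).index * (Nat.card (PhiP 2 G) * (PhiP 2 G).relIndex (H i))
      = 256 := by
    intro i
    rw [← Subgroup.relIndex_sup_right, excCardMul _ _ le_sup_right, mul_comm,
      Subgroup.card_mul_index, hG256]
  rcases hM with hM | hM
  · -- order 8
    rw [hM] at hsum
    have hex : ∃ i0, Nat.card (H i0 ⊓ PhiP 2 G : Subgroup G) = 1 := by
      by_contra hcon
      push Not at hcon
      have h1 : ∑ _i : ι, 1 ≤ ∑ i, (Nat.card (H i ⊓ PhiP 2 G : Subgroup G) - 1) := by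
        apply Finset.sum_le_sum
        intro i _
        have h2 := hcon i
        have h3 : 0 < Nat.card (H i ⊓ PhiP 2 G : Subgroup G) := Nat.card_pos
        omega
      rw [Finset.sum_const, Finset.card_univ, hι] at h1
      simp only [smul_eq_mul, mul_one] at h1
      omega
    obtain ⟨i0, hi0⟩ := hex
    have hg0 : (H i0 ⊔ PhiP 2 G).index = 2 := by
      have h1 := hrel i0
      have h2 := hidx i0
      rw [hi0, one_mul] at h1
      rw [hM, h1] at h2
      omega
    have hlt : (⊥ : Subgroup G) < PhiP 2 G := by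
      rw [bot_lt_iff_ne_bot]
      intro hb
      rw [hb, Subgroup.card_bot] at hM
      omega
    obtain ⟨N, hN, -, hNM, hNidx⟩ := exists_index_p hG ⊥ (PhiP 2 G) inferInstance hMn hlt
    set J : Finset ι := Finset.univ.filter (fun i => H i ⊓ PhiP 2 G ≤ N) with hJ
    have hi0J : i0 ∈ J := by
      rw [hJ, Finset.mem_filter]
      refine ⟨Finset.mem_univ _, ?_⟩
      rw [Subgroup.card_eq_one.1 hi0]
      exact bot_le
    have hJ3 := card_J_le hG H hprod N hN hNM.le hNidx J (fun i hi => (Finset.mem_filter.1 hi).2)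
      i0 hi0J
    rw [hg0] at hJ3
    have hJc : 6 ≤ (Finset.univ.filter (fun i => ¬ (H i ⊓ PhiP 2 G ≤ N))).card := by
      have h2 : J.card + (Finset.univ.filter (fun i => ¬ (H i ⊓ PhiP 2 G ≤ N))).card =
          Fintype.card ι := by
        rw [← Finset.card_univ, hJ]
        convert Finset.card_filter_add_card_filter_not (s := (Finset.univ : Finset ι))
          (fun i => H i ⊓ PhiP 2 G ≤ N)
      omega
    have hch : ∀ i, ∃ y : G, (¬ (H i ⊓ PhiP 2 G ≤ N)) → y ∈ H i ∧ y ∈ PhiP 2 G ∧ y ∉ N := by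
      intro i
      by_cases hi : H i ⊓ PhiP 2 G ≤ N
      · exact ⟨1, fun h => absurd hi h⟩
      · obtain ⟨y, hy, hyN⟩ := SetLike.not_le_iff_exists.1 hi
        exact ⟨y, fun _ => ⟨hy.1, hy.2, hyN⟩⟩
    choose y hy using hch
    have hfin : ((PhiP 2 G : Set G) \ (N : Set G)).Finite := Set.toFinite _
    have hcardt : hfin.toFinset.card = 4 := by
      rw [← Set.ncard_eq_toFinset_card _ hfin, Set.ncard_sdiff (fun z hz => hNM.le hz)
        (Set.toFinite _)]
      have h1 : (PhiP 2 G : Set G).ncard = 8 := hM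
      have h2 : (N : Set G).ncard = 4 := by
        have h3 := excCardMul N (PhiP 2 G) hNM.le
        rw [hNidx, hM] at h3
        have h4 : Nat.card N = 4 := by omega
        exact h4
      rw [h1, h2]
    obtain ⟨i, hi, j, hj, hij, hxx⟩ := Finset.exists_ne_map_eq_of_card_lt_of_maps_to
      (s := Finset.univ.filter (fun i => ¬ (H i ⊓ PhiP 2 G ≤ N))) (t := hfin.toFinset)
      (by omega) (f := y) (by
        intro l hl
        rw [Finset.mem_coe, Finset.mem_filter] at hl
        rw [Set.Finite.coe_toFinset]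
        exact ⟨(hy l hl.2).2.1, (hy l hl.2).2.2⟩)
    rw [Finset.mem_filter] at hi hj
    have h1 := h.disj i j hij (y i) (hy i hi.2).1 (by rw [hxx]; exact (hy j hj.2).1)
    exact (hy i hi.2).2.2 (by rw [h1]; exact N.one_mem)
  · -- order 16
    rw [hM] at hsum
    have hd : ∀ i, (H i ⊔ PhiP 2 G).index = Nat.card (H i ⊓ PhiP 2 G : Subgroup G) := by
      intro i
      have h1 := hrel i
      have h2 := hidx i
      rw [hM] at h2
      have h3 : 0 < (PhiP 2 G).relIndex (H i) := by
        rcases Nat.eq_zero_or_pos ((PhiP 2 G).relIndex (H i)) with h0 | h0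
        · rw [h0, mul_zero] at h1; omega
        · exact h0
      have h4 : (H i ⊔ PhiP 2 G).index * (PhiP 2 G).relIndex (H i) =
          Nat.card (H i ⊓ PhiP 2 G : Subgroup G) * (PhiP 2 G).relIndex (H i) := by
        rw [h1]
        have : (H i ⊔ PhiP 2 G).index * (16 * (PhiP 2 G).relIndex (H i)) =
          16 * ((H i ⊔ PhiP 2 G).index * (PhiP 2 G).relIndex (H i)) := by ring
        omega
      exact Nat.eq_of_mul_eq_mul_right h3 h4
    have hd2 : ∀ i, 2 ≤ Nat.card (H i ⊓ PhiP 2 G : Subgroup G) := by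
      intro i
      have h1 : H i ≠ ⊤ := by
        intro ht
        have h2 := h.cardH i
        rw [ht, Subgroup.card_top, hG256] at h2
        omega
      have h2 := sup_PhiP_ne_top hG (H i) h1
      rw [← hd i]
      have h3 : (H i ⊔ PhiP 2 G).index ≠ 1 := fun h4 => h2 (Subgroup.index_eq_one.1 h4)
      have h4 : (H i ⊔ PhiP 2 G).index ≠ 0 := Subgroup.index_ne_zero_of_finite
      omega
    have hd4 : ∀ i, Nat.card (H i ⊓ PhiP 2 G : Subgroup G) ≠ 2 →
        4 ≤ Nat.card (H i ⊓ PhiP 2 G : Subgroup G) := by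
      intro i hi
      have h1 : Nat.card (H i ⊓ PhiP 2 G : Subgroup G) ∣ 16 := Dvd.intro _ (hrel i)
      have h2 := hd2 i
      by_contra hcon
      have h3 : Nat.card (H i ⊓ PhiP 2 G : Subgroup G) = 3 := by omega
      rw [h3] at h1
      revert h1; decide
    set I : Finset ι := Finset.univ.filter
      (fun i => Nat.card (H i ⊓ PhiP 2 G : Subgroup G) = 2) with hI
    have hI6 : 6 ≤ I.card := by
      have h1 : ∑ i, (if Nat.card (H i ⊓ PhiP 2 G : Subgroup G) = 2 then 1 else 3) ≤
          ∑ i, (Nat.card (H i ⊓ PhiP 2 G : Subgroup G) - 1) := by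
        apply Finset.sum_le_sum
        intro i _
        split_ifs with h2
        · omega
        · have := hd4 i h2
          omega
      rw [Finset.sum_ite, Finset.sum_const, Finset.sum_const] at h1
      have h2 : I.card + (Finset.univ.filter
          (fun i => ¬ (Nat.card (H i ⊓ PhiP 2 G : Subgroup G) = 2))).card = Fintype.card ι := by
        rw [← Finset.card_univ, hI]
        convert Finset.card_filter_add_card_filter_not (s := (Finset.univ : Finset ι))
          (fun i => Nat.card (H i ⊓ PhiP 2 G : Subgroup G) = 2)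
      simp only [smul_eq_mul, mul_one] at h1
      rw [← hI] at h1
      omega
    have hch : ∀ i, ∃ y : G, i ∈ I → y ∈ H i ∧ y ∈ PhiP 2 G ∧ y ≠ 1 ∧
        ∀ z ∈ H i, z ∈ PhiP 2 G → z = 1 ∨ z = y := by
      intro i
      by_cases hi : i ∈ I
      · have h2 : Nat.card (H i ⊓ PhiP 2 G : Subgroup G) = 2 := (Finset.mem_filter.1 hi).2
        obtain ⟨y, hy1, hy2⟩ := (Nat.card_eq_two_iff' (1 : (H i ⊓ PhiP 2 G : Subgroup G))).1 h2
        refine ⟨y, fun _ => ⟨y.2.1, y.2.2, fun h0 => hy1 (Subtype.ext h0), ?_⟩⟩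
        intro z hz hz'
        by_cases hz1 : z = 1
        · exact Or.inl hz1
        · right
          have := hy2 ⟨z, hz, hz'⟩ (fun h0 => hz1 (congrArg Subtype.val h0))
          exact congrArg Subtype.val this
      · exact ⟨1, fun h0 => absurd h0 hi⟩
    choose x hx using hch
    refine case16 hG H hprod hM I hI6 x (fun i hi => hx i hi) ?_ ?_
    · intro i hi
      rw [hd i]
      exact (Finset.mem_filter.1 hi).2
    · intro i hi j hj hxx
      by_contra hij
      exact (hx i hi).2.2.1 (h.disj i j hij (x i) (hx i hi).1 (by rw [hxx]; exact (hx j hj).1))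

end Pool.Agent.Helper90.ST
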