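import Pool.Agent.Helper90.ST.Defs

set_option autoImplicit false

/-!
# Piece PG of the proof of S09391 (MP_6ecf75_co): p-groups
-/

namespace Pool.Agent.Helper90.ST

namespace PGAux

/-- A normal subgroup of order divisible by `p` of a `p`-group contains a central element `≠ 1`. -/
theorem exists_central {p : ℕ} [hp : Fact p.Prime] {Q : Type} [Group Q] [Finite Q]
    (hQ : IsPGroup p Q) (M : Subgroup Q) (hM : M.Normal) (hne : M ≠ ⊥) :
    ∃ z ∈ M, z ≠ 1 ∧ ∀ g : Q, z * g = g * z := by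
  have hMp : IsPGroup p M := hQ.to_subgroup M
  have hcard : Nat.card M ≠ 1 := by
    intro h
    exact hne (Subgroup.card_eq_one.1 h)
  obtain ⟨n, hn⟩ := IsPGroup.iff_card.1 hMp
  have hdvd : p ∣ Nat.card M := by
    rw [hn]
    rcases Nat.eq_zero_or_pos n with h0 | h0
    · exfalso; apply hcard; rw [hn, h0, pow_zero]
    · exact dvd_pow_self p h0.ne'
  have hC : IsPGroup p (ConjAct Q) := hQ.of_equiv ConjAct.toConjAct
  have h1 : (1 : M) ∈ MulAction.fixedPoints (ConjAct Q) M := by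
    intro g
    exact smul_one g
  obtain ⟨z, hz, hz1⟩ := hC.exists_fixed_point_of_prime_dvd_card_of_fixed_point M hdvd h1
  refine ⟨z, z.2, fun h => hz1 (Subtype.ext h).symm, fun g => ?_⟩
  have h2 := congrArg (Subtype.val) (hz (ConjAct.toConjAct g))
  rw [ConjAct.Subgroup.val_conj_smul, ConjAct.toConjAct_smul] at h2
  rw [mul_inv_eq_iff_eq_mul] at h2
  exact h2.symm

/-- A normal subgroup of order `p` of a `p`-group is central. -/
theorem central_of_card {p : ℕ} [hp : Fact p.Prime] {Q : Type} [Group Q] [Finite Q]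
    (hQ : IsPGroup p Q) (M : Subgroup Q) (hM : M.Normal) (hcard : Nat.card M = p) :
    ∀ z ∈ M, ∀ g : Q, z * g = g * z := by
  have hC : IsPGroup p (ConjAct Q) := hQ.of_equiv ConjAct.toConjAct
  have h1 : (1 : M) ∈ MulAction.fixedPoints (ConjAct Q) M := by
    intro g
    exact smul_one g
  have h2 := hC.card_modEq_card_fixedPoints M
  rw [hcard] at h2
  have h3 : p ∣ Nat.card (MulAction.fixedPoints (ConjAct Q) M) :=
    Nat.modEq_zero_iff_dvd.1 (h2.symm.trans (dvd_refl p).modEq_zero_nat)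
  have h4 : 0 < Nat.card (MulAction.fixedPoints (ConjAct Q) M) :=
    Finite.card_pos_iff.2 ⟨⟨1, h1⟩⟩
  have h5 : p ≤ Nat.card (MulAction.fixedPoints (ConjAct Q) M) := Nat.le_of_dvd h4 h3
  have h6 : MulAction.fixedPoints (ConjAct Q) M = Set.univ := by
    apply Set.eq_of_subset_of_ncard_le (Set.subset_univ _)
    rw [Set.ncard_univ, hcard]
    exact h5
  intro z hz g
  have hz' : (⟨z, hz⟩ : M) ∈ MulAction.fixedPoints (ConjAct Q) M := by
    rw [h6]; trivial
  have h7 := congrArg (Subtype.val) (hz' (ConjAct.toConjAct g))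
  rw [ConjAct.Subgroup.val_conj_smul, ConjAct.toConjAct_smul] at h7
  rw [mul_inv_eq_iff_eq_mul] at h7
  exact h7.symm

/-- A normal nontrivial subgroup of a `p`-group contains a normal subgroup of order `p`. -/
theorem exists_normal_card {p : ℕ} [hp : Fact p.Prime] {Q : Type} [Group Q] [Finite Q]
    (hQ : IsPGroup p Q) (M : Subgroup Q) (hM : M.Normal) (hne : M ≠ ⊥) :
    ∃ Z : Subgroup Q, Z.Normal ∧ Z ≤ M ∧ Nat.card Z = p := by
  obtain ⟨z, hz, hz1, hzc⟩ := exists_central hQ M hM hne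
  have hZp : IsPGroup p (Subgroup.zpowers z) := hQ.to_subgroup _
  obtain ⟨n, hn⟩ := IsPGroup.iff_card.1 hZp
  rw [Nat.card_zpowers] at hn
  have hn0 : n ≠ 0 := by
    rintro rfl
    rw [pow_zero, orderOf_eq_one_iff] at hn
    exact hz1 hn
  obtain ⟨m, rfl⟩ := Nat.exists_eq_succ_of_ne_zero hn0
  set y := z ^ (p ^ m) with hy
  have hyo : orderOf y = p := by
    rw [hy, orderOf_pow' z (pow_ne_zero _ hp.out.ne_zero), hn]
    have : Nat.gcd (p ^ (m + 1)) (p ^ m) = p ^ m :=
      Nat.gcd_eq_right (pow_dvd_pow p (Nat.le_succ m))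
    rw [Nat.succ_eq_add_one, this, pow_succ, Nat.mul_div_cancel_left _ (pow_pos hp.out.pos _)]
  have hyc : ∀ g : Q, y * g = g * y := fun g => by
    have : Commute z g := hzc g
    exact (this.pow_left (p ^ m))
  refine ⟨Subgroup.zpowers y, ?_, ?_, ?_⟩
  · constructor
    intro x hx g
    obtain ⟨k, rfl⟩ := Subgroup.mem_zpowers_iff.1 hx
    have : Commute y g := hyc g
    have h2 : Commute (y ^ k) g := this.zpow_left k
    have h3 : g * y ^ k * g⁻¹ = y ^ k := by
      rw [← h2.eq, mul_inv_cancel_right]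
    rw [h3]
    exact Subgroup.zpow_mem_zpowers y k
  · rw [Subgroup.zpowers_le]
    exact M.pow_mem hz _
  · rw [Nat.card_zpowers, hyo]

end PGAux

theorem exists_index_p {p : ℕ} [Fact p.Prime] {G : Type} [Group G] [Finite G]
    (hG : IsPGroup p G) (L K : Subgroup G) (hL : L.Normal) (hK : K.Normal) (hLK : L < K) :
    ∃ N : Subgroup G, N.Normal ∧ L ≤ N ∧ N < K ∧ N.relIndex K = p := by
  classical
  obtain ⟨N, hN, hmax⟩ := (Set.toFinite {N : Subgroup G | N.Normal ∧ L ≤ N ∧ N < K}).exists_maximal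
    ⟨L, hL, le_rfl, hLK⟩
  obtain ⟨hNn, hLN, hNK⟩ := hN
  refine ⟨N, hNn, hLN, hNK, ?_⟩
  have hQ : IsPGroup p (G ⧸ N) := hG.to_quotient N
  have hK' : (K.map (QuotientGroup.mk' N)).Normal :=
    hK.map _ (QuotientGroup.mk'_surjective N)
  have hne : K.map (QuotientGroup.mk' N) ≠ ⊥ := by
    intro h
    rw [Subgroup.map_eq_bot_iff, QuotientGroup.ker_mk'] at h
    exact (lt_irrefl _ (hNK.trans_le h))
  obtain ⟨Z, hZn, hZK, hZ⟩ := PGAux.exists_normal_card hQ _ hK' hne
  have hNZ : N ≤ Z.comap (QuotientGroup.mk' N) := by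
    intro x hx
    rw [Subgroup.mem_comap]
    have : (QuotientGroup.mk' N) x = 1 := (QuotientGroup.eq_one_iff x).2 hx
    rw [this]
    exact Z.one_mem
  have hZK' : Z.comap (QuotientGroup.mk' N) ≤ K := by
    have h1 := Subgroup.comap_mono (f := QuotientGroup.mk' N) hZK
    rw [Subgroup.comap_map_eq, QuotientGroup.ker_mk', sup_eq_left.2 hNK.le] at h1
    exact h1
  have hidx : N.relIndex (Z.comap (QuotientGroup.mk' N)) = p := by
    have h1 : N = (⊥ : Subgroup (G ⧸ N)).comap (QuotientGroup.mk' N) := by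
      rw [MonoidHom.comap_bot, QuotientGroup.ker_mk']
    have h2 : ((⊥ : Subgroup (G ⧸ N)).comap (QuotientGroup.mk' N)).relIndex
        (Z.comap (QuotientGroup.mk' N)) = p := by
      rw [Subgroup.relIndex_comap, Subgroup.map_comap_eq_self_of_surjective
        (QuotientGroup.mk'_surjective N), Subgroup.relIndex_bot_left]
      exact hZ
    rw [← h1] at h2
    exact h2
  have hlt : N < Z.comap (QuotientGroup.mk' N) := by
    refine lt_of_le_of_ne hNZ ?_
    intro h
    rw [← h, Subgroup.relIndex_self] at hidx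
    exact (Fact.out (p := p.Prime)).one_lt.ne hidx
  have heq : Z.comap (QuotientGroup.mk' N) = K := by
    by_contra hne2
    have h3 := hmax ⟨hZn.comap _, hLN.trans hNZ, lt_of_le_of_ne hZK' hne2⟩ hNZ
    exact absurd hlt (not_lt_of_ge h3)
  rw [heq] at hidx
  exact hidx

theorem comm_mem_of_relIndex {p : ℕ} [Fact p.Prime] {G : Type} [Group G] [Finite G]
    (hG : IsPGroup p G) (N K : Subgroup G) (hN : N.Normal) (hK : K.Normal) (hNK : N ≤ K)
    (hidx : N.relIndex K = p) : ∀ k ∈ K, ∀ g : G, k⁻¹ * g⁻¹ * k * g ∈ N := by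
  have hQ : IsPGroup p (G ⧸ N) := hG.to_quotient N
  have hK' : (K.map (QuotientGroup.mk' N)).Normal :=
    hK.map _ (QuotientGroup.mk'_surjective N)
  have hcard : Nat.card (K.map (QuotientGroup.mk' N)) = p := by
    rw [← Subgroup.relIndex_bot_left, ← Subgroup.relIndex_comap, MonoidHom.comap_bot,
      QuotientGroup.ker_mk']
    exact hidx
  intro k hk g
  have h1 := PGAux.central_of_card hQ _ hK' hcard (QuotientGroup.mk' N k)
    (Subgroup.mem_map_of_mem _ hk) (QuotientGroup.mk' N g)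
  rw [← QuotientGroup.eq_one_iff]
  have h2 : (QuotientGroup.mk' N) (k⁻¹ * g⁻¹ * k * g) = 1 := by
    rw [map_mul, map_mul, map_mul, map_inv, map_inv, mul_assoc, h1]
    group
  exact h2

theorem PhiP_normal (p : ℕ) (G : Type) [Group G] : (PhiP p G).Normal := by
  constructor
  intro n hn g
  have : (PhiP p G).map (MulAut.conj g).toMonoidHom ≤ PhiP p G := by
    unfold PhiP
    rw [MonoidHom.map_closure, Subgroup.closure_le]
    rintro _ ⟨z, ⟨x, y, hz⟩, rfl⟩
    apply Subgroup.subset_closure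
    refine ⟨g * x * g⁻¹, g * y * g⁻¹, ?_⟩
    rcases hz with rfl | rfl
    · left
      simp [conj_pow]
    · right
      simp only [MulEquiv.coe_toMonoidHom, MulAut.conj_apply]
      group
  exact this ⟨n, hn, by simp⟩

theorem pow_mem_PhiP (p : ℕ) {G : Type} [Group G] (x : G) : x ^ p ∈ PhiP p G :=
  Subgroup.subset_closure ⟨x, 1, Or.inl rfl⟩

theorem comm_mem_PhiP (p : ℕ) {G : Type} [Group G] (x y : G) :
    x * y * x⁻¹ * y⁻¹ ∈ PhiP p G :=
  Subgroup.subset_closure ⟨x, y, Or.inr rfl⟩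

theorem PhiP_le {p : ℕ} {G : Type} [Group G] {N : Subgroup G} (hpow : ∀ x : G, x ^ p ∈ N)
    (hcomm : ∀ x y : G, x * y * x⁻¹ * y⁻¹ ∈ N) : PhiP p G ≤ N := by
  unfold PhiP
  rw [Subgroup.closure_le]
  rintro z ⟨x, y, rfl | rfl⟩
  · exact hpow x
  · exact hcomm x y

theorem sup_PhiP_ne_top {p : ℕ} [Fact p.Prime] {G : Type} [Group G] [Finite G]
    (hG : IsPGroup p G) (H : Subgroup G) (hH : H ≠ ⊤) : H ⊔ PhiP p G ≠ ⊤ := by
  rcases eq_top_or_exists_le_coatom H with h | ⟨N, hN, hHN⟩
  · exact absurd h hH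
  have hnil : Group.IsNilpotent G := hG.isNilpotent
  have hNn : N.Normal := by
    have hc : NormalizerCondition G := Group.normalizerCondition_of_isNilpotent
    exact Subgroup.NormalizerCondition.normal_of_coatom N hc hN
  obtain ⟨N', hN'n, hNN', hN'top, hidx⟩ := exists_index_p hG N ⊤ hNn inferInstance
    (lt_top_iff_ne_top.2 hN.1)
  have hEq : N' = N := by
    by_contra hne
    exact hN'top.ne (hN.2 N' (lt_of_le_of_ne hNN' (Ne.symm hne)))
  subst hEq
  have hcm := comm_mem_of_relIndex hG N' ⊤ hN'n inferInstance le_top hidx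
  have hidx' : N'.index = p := by
    rw [← Subgroup.relIndex_top_right]; exact hidx
  have hle : PhiP p G ≤ N' := by
    apply PhiP_le
    · intro x
      have := Subgroup.pow_index_mem (H := N') x
      rw [hidx'] at this
      exact this
    · intro x y
      have := hcm x⁻¹ (Subgroup.mem_top _) y⁻¹
      simpa using this
  intro h
  have : (⊤ : Subgroup G) ≤ N' := by
    rw [← h]
    exact sup_le hHN hle
  exact hN.1 (top_le_iff.1 this)

end Pool.Agent.Helper90.ST
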